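import Mathlib

/-! Core combinatorics for the closed almost disjointness number. -/

open Set

namespace Pool.Agent.Helper75.SplitCore

/-- a tree code: for each number either nothing, or the finite set of its predecessors -/
abbrev Code := ℕ → Option (Finset ℕ)

/-- the family of infinite sets coded by a tree code -/
def Fam (P : Code) : Set (Set ℕ) :=
  {A | A.Infinite ∧ ∀ n ∈ A, ∃ s : Finset ℕ, P n = some s ∧ ∀ m, m ∈ s ↔ (m ∈ A ∧ m < n)}

/-- coherence of a tree code -/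
def Coh (P : Code) : Prop :=
  ∀ n s, P n = some s → ∀ m ∈ s, m < n ∧ ∃ t, P m = some t ∧ ∀ k, k ∈ t ↔ (k ∈ s ∧ k < m)

/-- the tree order -/
def Rel (P : Code) (m n : ℕ) : Prop := ∃ s, P n = some s ∧ m ∈ s

theorem exists_gt {A : Set ℕ} (hA : A.Infinite) (x : ℕ) : ∃ n ∈ A, x < n := hA.exists_gt x

theorem fam_ad {P : Code} {A B : Set ℕ} (hA : A ∈ Fam P) (hB : B ∈ Fam P)
    (h : (A ∩ B).Infinite) : A = B := by
  have key : ∀ A B : Set ℕ, A ∈ Fam P → B ∈ Fam P → (A ∩ B).Infinite → A ⊆ B := by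
    intro A B hA hB h x hx
    obtain ⟨n, ⟨hnA, hnB⟩, hxn⟩ := h.exists_gt x
    obtain ⟨s, hs, hsA⟩ := hA.2 n hnA
    obtain ⟨t, ht, htB⟩ := hB.2 n hnB
    have hst : s = t := by
      have := hs.symm.trans ht
      simpa using this
    subst hst
    exact ((htB x).1 ((hsA x).2 ⟨hx, hxn⟩)).1
  exact Subset.antisymm (key A B hA hB h) (key B A hB hA (by rwa [inter_comm]))

theorem rel_of_mem {P : Code} {A : Set ℕ} (hA : A ∈ Fam P) {x y : ℕ} (hx : x ∈ A) (hy : y ∈ A)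
    (hxy : x < y) : Rel P x y := by
  obtain ⟨s, hs, hsA⟩ := hA.2 y hy
  exact ⟨s, hs, (hsA x).2 ⟨hx, hxy⟩⟩

theorem rel_lt {P : Code} (hP : Coh P) {m n : ℕ} (h : Rel P m n) : m < n := by
  obtain ⟨s, hs, hm⟩ := h
  exact (hP n s hs m hm).1

/-- an infinite chain is contained in a member of the family -/
theorem fam_of_chain {P : Code} (hP : Coh P) (f : ℕ → ℕ)
    (hf : ∀ k, Rel P (f k) (f (k + 1))) : ∃ A ∈ Fam P, ∀ k, f k ∈ A := by
  have hlt : ∀ k, f k < f (k + 1) := fun k => rel_lt hP (hf k)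
  have hmono : StrictMono f := strictMono_nat_of_lt_succ hlt
  -- predecessor sets
  have hs : ∀ k, ∃ s, P (f k) = some s := by
    intro k
    obtain ⟨s, hs, hm⟩ := hf k
    obtain ⟨-, t, ht, -⟩ := hP _ _ hs _ hm
    exact ⟨t, ht⟩
  choose s hs using hs
  have hstep : ∀ k x, x ∈ s k ↔ (x ∈ s (k + 1) ∧ x < f k) := by
    intro k x
    obtain ⟨s', hs', hm⟩ := hf k
    have h1 : s' = s (k + 1) := by
      have := hs'.symm.trans (hs (k + 1))
      simpa using this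
    obtain ⟨-, t, ht, htx⟩ := hP _ _ hs' _ hm
    have h2 : t = s k := by
      have := ht.symm.trans (hs k)
      simpa using this
    rw [← h1, ← h2]
    exact htx x
  have hall : ∀ d k x, x ∈ s k ↔ (x ∈ s (k + d) ∧ x < f k) := by
    intro d
    induction d with
    | zero =>
      intro k x
      constructor
      · intro hx
        exact ⟨hx, ((hstep k x).1 hx).2⟩
      · intro hx
        exact hx.1
    | succ d ih =>
      intro k x
      rw [ih k x, ← add_assoc, hstep (k + d) x]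
      constructor
      · rintro ⟨⟨h1, _⟩, h3⟩
        exact ⟨h1, h3⟩
      · rintro ⟨h1, h3⟩
        exact ⟨⟨h1, lt_of_lt_of_le h3 (hmono.monotone (Nat.le_add_right k d))⟩, h3⟩
  have hle : ∀ j k x, j ≤ k → (x ∈ s j ↔ (x ∈ s k ∧ x < f j)) := by
    intro j k x hjk
    obtain ⟨d, rfl⟩ := Nat.exists_eq_add_of_le hjk
    exact hall d j x
  have hmem : ∀ k, f k ∈ s (k + 1) := by
    intro k
    obtain ⟨s', hs', hm⟩ := hf k
    have h1 : s' = s (k + 1) := by
      have := hs'.symm.trans (hs (k + 1))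
      simpa using this
    exact h1 ▸ hm
  refine ⟨{x | ∃ k, x ∈ s k}, ⟨?_, ?_⟩, fun k => ⟨k + 1, hmem k⟩⟩
  · apply Set.infinite_of_injective_forall_mem (f := f) hmono.injective
    intro k
    exact ⟨k + 1, hmem k⟩
  · rintro n ⟨k, hk⟩
    obtain ⟨hnk, t, ht, htx⟩ := hP _ _ (hs k) _ hk
    refine ⟨t, ht, ?_⟩
    intro x
    rw [htx x]
    constructor
    · rintro ⟨h1, h2⟩
      exact ⟨⟨k, h1⟩, h2⟩
    · rintro ⟨⟨j, hj⟩, h2⟩
      refine ⟨?_, h2⟩
      rcases le_total j k with hjk | hjk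
      · exact ((hle j k x hjk).1 hj).1
      · exact (hle k j x hjk).2 ⟨hj, h2.trans hnk⟩

section Rank

variable {Ω : Type} [LinearOrder Ω]

/-- rank function for an uncaught set -/
theorem exists_rank {P : Code} (hP : Coh P)
    (hb : ∀ S : Set Ω, S.Countable → ∃ γ, ∀ s ∈ S, s < γ) (b : Set ℕ)
    (hunc : ∀ A ∈ Fam P, (A ∩ b).Finite) :
    ∃ ρ : ℕ → Ω, ∀ m ∈ b, ∀ n ∈ b, Rel P m n → ρ n < ρ m := by
  let r : ℕ → ℕ → Prop := fun n m => m ∈ b ∧ n ∈ b ∧ Rel P m n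
  have hwf : WellFounded r := by
    rw [wellFounded_iff_isEmpty_descending_chain]
    constructor
    rintro ⟨F, hF⟩
    obtain ⟨A, hA, hfA⟩ := fam_of_chain hP F (fun k => (hF k).2.2)
    have hsm : StrictMono F := strictMono_nat_of_lt_succ (fun k => rel_lt hP (hF k).2.2)
    refine (Set.infinite_of_injective_forall_mem (f := F) hsm.injective ?_) (hunc A hA)
    intro k
    exact ⟨hfA k, (hF k).1⟩
  let ρ : ℕ → Ω := hwf.fix (C := fun _ => Ω) (fun m ih =>
    Classical.choose (hb (Set.range (fun n : {n // r n m} => ih n.1 n.2)) (countable_range _)))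
  refine ⟨ρ, ?_⟩
  intro m hm n hn hmn
  have h1 : ρ m = Classical.choose (hb (Set.range (fun n : {n // r n m} => ρ n.1))
      (countable_range _)) := hwf.fix_eq _ m
  have h2 := Classical.choose_spec (hb (Set.range (fun n : {n // r n m} => ρ n.1))
      (countable_range _))
  rw [h1]
  exact h2 (ρ n) ⟨⟨n, hm, hn, hmn⟩, rfl⟩

end Rank

/-- the finite history attached to a finite set of numbers and labels -/
def hist (s : Finset ℕ) (R : ℕ → ℕ → ℕ) : Finset (ℕ × List ℕ) :=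
  s.image (fun x => (x, (List.range (x + 1)).map (R x)))

/-- numerical code of the history -/
noncomputable def hc (s : Finset ℕ) (R : ℕ → ℕ → ℕ) : ℕ := Encodable.encode (hist s R)

theorem hist_aux {s s' : Finset ℕ} {R R' : ℕ → ℕ → ℕ} (h : hist s R = hist s' R') :
    ∀ x ∈ s, x ∈ s' ∧ ∀ k ≤ x, R x k = R' x k := by
  intro x hx
  have hmem : (x, (List.range (x + 1)).map (R x)) ∈ hist s' R' := by
    rw [← h]
    exact Finset.mem_image_of_mem _ hx
  obtain ⟨x', hx', heq⟩ := Finset.mem_image.1 hmem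
  have h1 : x' = x := congrArg Prod.fst heq
  subst h1
  refine ⟨hx', ?_⟩
  have h2 : (List.range (x' + 1)).map (R' x') = (List.range (x' + 1)).map (R x') :=
    congrArg Prod.snd heq
  intro k hk
  have := List.map_inj_left.1 h2 k (List.mem_range.2 (Nat.lt_succ_of_le hk))
  exact this.symm

theorem hc_inj {s s' : Finset ℕ} {R R' : ℕ → ℕ → ℕ} (h : hc s R = hc s' R') :
    s = s' ∧ ∀ x ∈ s, ∀ k ≤ x, R x k = R' x k := by
  have h' : hist s R = hist s' R' := Encodable.encode_injective h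
  refine ⟨?_, fun x hx => (hist_aux h' x hx).2⟩
  apply Finset.Subset.antisymm
  · intro x hx
    exact (hist_aux h' x hx).1
  · intro x hx
    exact (hist_aux h'.symm x hx).1

theorem hc_congr {s : Finset ℕ} {R R' : ℕ → ℕ → ℕ} (h : ∀ x ∈ s, ∀ k ≤ x, R x k = R' x k) :
    hc s R = hc s R' := by
  unfold hc hist
  congr 1
  apply Finset.image_congr
  intro x hx
  simp only [Prod.mk.injEq, true_and]
  apply List.map_congr_left
  intro k hk
  exact h x hx k (Nat.lt_succ_iff.1 (List.mem_range.1 hk))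

section Stage

variable {Ω : Type} [LinearOrder Ω]

/-- the number `n` may follow the finite set `s` with labels `R` at stage `γ` -/
def Good (γ : Ω) (e : ℕ → ℕ) (i : Ω → ℕ) (dec : ℕ → Ω) (Q : ∀ β : Ω, β < γ → Code)
    (n : ℕ) (s : Finset ℕ) (R : ℕ → ℕ → ℕ) : Prop :=
  e n = hc s R ∧ (∀ x ∈ s, x < n) ∧ (∀ x ∈ s, e x = hc (s.filter (· < x)) R) ∧
    ∀ x ∈ s, ∀ y ∈ s, x < y → ∀ (β : Ω) (hβ : β < γ), i β ≤ x → Rel (Q β hβ) x y →
      dec (R y (i β)) < dec (R x (i β))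

open Classical in
/-- the tree code built at stage `γ` -/
noncomputable def stage (γ : Ω) (e : ℕ → ℕ) (i : Ω → ℕ) (dec : ℕ → Ω)
    (Q : ∀ β : Ω, β < γ → Code) : Code := fun n =>
  if h : ∃ (s : Finset ℕ) (R : ℕ → ℕ → ℕ), Good γ e i dec Q n s R then some h.choose else none

variable {γ : Ω} {e : ℕ → ℕ} {i : Ω → ℕ} {dec : ℕ → Ω} {Q : ∀ β : Ω, β < γ → Code}

theorem stage_eq {n : ℕ} {s : Finset ℕ} {R : ℕ → ℕ → ℕ} (h : Good γ e i dec Q n s R) :
    stage γ e i dec Q n = some s := by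
  have hex : ∃ (s : Finset ℕ) (R : ℕ → ℕ → ℕ), Good γ e i dec Q n s R := ⟨s, R, h⟩
  have h1 : stage γ e i dec Q n = some hex.choose := by
    unfold stage
    exact dif_pos hex
  obtain ⟨R', hR'⟩ := hex.choose_spec
  have h2 : hc hex.choose R' = hc s R := by
    rw [← hR'.1, ← h.1]
  rw [h1, (hc_inj h2).1]

theorem stage_some {n : ℕ} {s : Finset ℕ} (h : stage γ e i dec Q n = some s) :
    ∃ R, Good γ e i dec Q n s R := by
  unfold stage at h
  split_ifs at h with hex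
  · have h1 : hex.choose = s := by simpa using h
    obtain ⟨R', hR'⟩ := hex.choose_spec
    rw [h1] at hR'
    exact ⟨R', hR'⟩

theorem good_prefix {n : ℕ} {s : Finset ℕ} {R : ℕ → ℕ → ℕ} (h : Good γ e i dec Q n s R)
    {x : ℕ} (hx : x ∈ s) : Good γ e i dec Q x (s.filter (· < x)) R := by
  refine ⟨h.2.2.1 x hx, ?_, ?_, ?_⟩
  · intro y hy
    exact (Finset.mem_filter.1 hy).2
  · intro y hy
    obtain ⟨hys, hyx⟩ := Finset.mem_filter.1 hy
    rw [h.2.2.1 y hys]
    congr 1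
    ext z
    simp only [Finset.mem_filter]
    constructor
    · rintro ⟨h1, h2⟩
      exact ⟨⟨h1, h2.trans hyx⟩, h2⟩
    · rintro ⟨⟨h1, _⟩, h2⟩
      exact ⟨h1, h2⟩
  · intro y hy z hz hyz β hβ hi hrel
    exact h.2.2.2 y (Finset.mem_filter.1 hy).1 z (Finset.mem_filter.1 hz).1 hyz β hβ hi hrel

theorem stage_coh : Coh (stage γ e i dec Q) := by
  intro n s hs m hm
  obtain ⟨R, hR⟩ := stage_some hs
  refine ⟨hR.2.1 m hm, s.filter (· < m), stage_eq (good_prefix hR hm), ?_⟩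
  intro k
  simp [Finset.mem_filter]

/-- members of the stage family are orthogonal to the previous families -/
theorem stage_orth [WellFoundedLT Ω] {A : Set ℕ} (hA : A ∈ Fam (stage γ e i dec Q))
    {β : Ω} (hβ : β < γ) {B : Set ℕ} (hB : B ∈ Fam (Q β hβ)) : (A ∩ B).Finite := by
  by_contra hinf
  have hinf : (A ∩ B).Infinite := hinf
  have hdata : ∀ n : A, ∃ (s : Finset ℕ) (R : ℕ → ℕ → ℕ), Good γ e i dec Q n.1 s R ∧
      ∀ m, m ∈ s ↔ (m ∈ A ∧ m < n.1) := by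
    intro n
    obtain ⟨s, hs, hsA⟩ := hA.2 n.1 n.2
    obtain ⟨R, hR⟩ := stage_some hs
    exact ⟨s, R, hR, hsA⟩
  choose s R hG hs using hdata
  -- labels agree
  have hagree : ∀ n n' : A, n.1 < n'.1 → ∀ x ∈ A, x < n.1 → ∀ k ≤ x, R n x k = R n' x k := by
    intro n n' hnn' x hx hxn k hk
    have h1 : n.1 ∈ s n' := (hs n' n.1).2 ⟨n.2, hnn'⟩
    have h2 := (hG n').2.2.1 n.1 h1
    have h3 : hc (s n) (R n) = hc ((s n').filter (· < n.1)) (R n') := by
      rw [← h2, ← (hG n).1]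
    exact (hc_inj h3).2 x ((hs n x).2 ⟨hx, hxn⟩) k hk
  have hnext : ∀ x : ℕ, ∃ n : A, x < n.1 := by
    intro x
    obtain ⟨n, hn, hxn⟩ := hA.1.exists_gt x
    exact ⟨⟨n, hn⟩, hxn⟩
  choose ν hν using hnext
  let f : ℕ → Ω := fun x => dec (R (ν x) x (i β))
  have hf : ∀ n : A, ∀ x ∈ A, x < n.1 → i β ≤ x → f x = dec (R n x (i β)) := by
    intro n x hx hxn hix
    show dec (R (ν x) x (i β)) = dec (R n x (i β))
    rcases lt_trichotomy (ν x).1 n.1 with h | h | h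
    · rw [hagree _ _ h x hx (hν x) _ hix]
    · have : ν x = n := Subtype.ext h
      rw [this]
    · rw [hagree _ _ h x hx hxn _ hix]
  -- the infinite set on which f decreases
  have hX : ({x | x ∈ A ∩ B ∧ i β ≤ x} : Set ℕ).Nonempty := by
    obtain ⟨x, hx, hix⟩ := hinf.exists_gt (i β)
    exact ⟨x, hx, hix.le⟩
  have hne : (f '' {x | x ∈ A ∩ B ∧ i β ≤ x}).Nonempty := hX.image f
  obtain ⟨o, ho, hmin⟩ := WellFounded.has_min (wellFounded_lt (α := Ω)) _ hne
  obtain ⟨x, ⟨hxAB, hix⟩, rfl⟩ := ho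
  obtain ⟨y, hyAB, hxy⟩ := hinf.exists_gt x
  obtain ⟨n, hn, hyn⟩ := hA.1.exists_gt y
  have h1 : f x = dec (R ⟨n, hn⟩ x (i β)) := hf ⟨n, hn⟩ x hxAB.1 (hxy.trans hyn) hix
  have h2 : f y = dec (R ⟨n, hn⟩ y (i β)) := hf ⟨n, hn⟩ y hyAB.1 hyn (hix.trans hxy.le)
  have h3 : f y < f x := by
    rw [h1, h2]
    exact (hG ⟨n, hn⟩).2.2.2 x ((hs _ x).2 ⟨hxAB.1, hxy.trans hyn⟩) y
      ((hs _ y).2 ⟨hyAB.1, hyn⟩) hxy β hβ hix (rel_of_mem hB hxAB.2 hyAB.2 hxy)
  exact hmin (f y) ⟨y, ⟨hyAB, hix.trans hxy.le⟩, rfl⟩ h3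

/-- catching: a set split by `e` all of whose rank functions are small is caught -/
theorem stage_catch (b : Set ℕ) (hsplit : ∀ n, {m | m ∈ b ∧ e m = n}.Infinite)
    (enc : Ω → ℕ) (henc : ∀ α < γ, dec (enc α) = α) (δ : ℕ → Ω) (hδ : ∀ β < γ, δ (i β) = β)
    (ρ : Ω → ℕ → Ω) (hργ : ∀ β < γ, ∀ m ∈ b, ρ β m < γ)
    (hρ : ∀ (β : Ω) (hβ : β < γ), ∀ m ∈ b, ∀ n ∈ b, Rel (Q β hβ) m n → ρ β n < ρ β m)
    (m₀ : ℕ) (hm₀ : m₀ ∈ b) (hem₀ : e m₀ = hc ∅ (fun _ _ => 0)) :
    ∃ A ∈ Fam (stage γ e i dec Q), A ⊆ b ∧ m₀ ∈ A := by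
  let R : ℕ → ℕ → ℕ := fun x k => enc (ρ (δ k) x)
  have hpick : ∀ F : Finset ℕ, ∃ n, n ∈ b ∧ e n = hc F R ∧ ∀ x ∈ F, x < n := by
    intro F
    obtain ⟨n, hn, hlt⟩ := (hsplit (hc F R)).exists_gt (F.sup id)
    exact ⟨n, hn.1, hn.2, fun x hx => lt_of_le_of_lt (Finset.le_sup (f := id) hx) hlt⟩
  choose pick' hpb' hpe' hplt' using hpick
  let pick : Finset ℕ → ℕ := fun F => if F = ∅ then m₀ else pick' F
  have hpb : ∀ F, pick F ∈ b := by
    intro F
    by_cases h : F = ∅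
    · simpa [pick, h] using hm₀
    · simpa [pick, h] using hpb' F
  have hpe : ∀ F, e (pick F) = hc F R := by
    intro F
    by_cases h : F = ∅
    · have : hc (∅ : Finset ℕ) (fun _ _ => 0) = hc ∅ R := hc_congr (by simp)
      simp [pick, h, hem₀, this]
    · simpa [pick, h] using hpe' F
  have hplt : ∀ F, ∀ x ∈ F, x < pick F := by
    intro F x hx
    by_cases h : F = ∅
    · simp [h] at hx
    · simpa [pick, h] using hplt' F x hx
  let F : ℕ → Finset ℕ := fun j => Nat.rec ∅ (fun _ G => insert (pick G) G) j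
  have hF0 : F 0 = ∅ := rfl
  have hFs : ∀ j, F (j + 1) = insert (pick (F j)) (F j) := fun j => rfl
  have hFmono : Monotone F := by
    apply monotone_nat_of_le_succ
    intro j
    rw [hFs]
    exact Finset.subset_insert _ _
  have hmemF : ∀ j x, x ∈ F j ↔ ∃ k < j, x = pick (F k) := by
    intro j
    induction j with
    | zero => intro x; simp [hF0]
    | succ j ih =>
      intro x
      rw [hFs, Finset.mem_insert, ih x]
      constructor
      · rintro (h | ⟨k, hk, h⟩)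
        · exact ⟨j, Nat.lt_succ_self j, h⟩
        · exact ⟨k, hk.trans (Nat.lt_succ_self j), h⟩
      · rintro ⟨k, hk, h⟩
        rcases Nat.lt_succ_iff_lt_or_eq.1 hk with hk | hk
        · exact Or.inr ⟨k, hk, h⟩
        · left; rw [h, hk]
  have hpm : ∀ j k, j < k → pick (F j) < pick (F k) := by
    intro j k hjk
    exact hplt (F k) _ ((hmemF k _).2 ⟨j, hjk, rfl⟩)
  have hpsm : StrictMono (fun j => pick (F j)) := fun j k hjk => hpm j k hjk
  -- elements of F k below pick (F j)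
  have hfilter : ∀ j k, j ≤ k → (F k).filter (· < pick (F j)) = F j := by
    intro j k hjk
    ext x
    rw [Finset.mem_filter, hmemF, hmemF]
    constructor
    · rintro ⟨⟨l, _, rfl⟩, hlt⟩
      exact ⟨l, hpsm.lt_iff_lt.1 hlt, rfl⟩
    · rintro ⟨l, hl, rfl⟩
      exact ⟨⟨l, hl.trans_le hjk, rfl⟩, hpm l j hl⟩
  have hFb : ∀ j x, x ∈ F j → x ∈ b := by
    intro j x hx
    obtain ⟨k, _, rfl⟩ := (hmemF j x).1 hx
    exact hpb _
  have hgood : ∀ j, Good γ e i dec Q (pick (F j)) (F j) R := by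
    intro j
    refine ⟨hpe _, fun x hx => hplt _ x hx, ?_, ?_⟩
    · intro x hx
      obtain ⟨k, hk, rfl⟩ := (hmemF j x).1 hx
      rw [hfilter k j hk.le]
      exact hpe _
    · intro x hx y hy _ β hβ _ hrel
      show dec (enc (ρ (δ (i β)) y)) < dec (enc (ρ (δ (i β)) x))
      rw [hδ β hβ, henc _ (hργ β hβ y (hFb j y hy)), henc _ (hργ β hβ x (hFb j x hx))]
      exact hρ β hβ x (hFb j x hx) y (hFb j y hy) hrel
  refine ⟨Set.range (fun j => pick (F j)), ⟨Set.infinite_range_of_injective hpsm.injective, ?_⟩,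
    ?_, ?_⟩
  · rintro _ ⟨j, rfl⟩
    refine ⟨F j, stage_eq (hgood j), ?_⟩
    intro x
    rw [hmemF]
    constructor
    · rintro ⟨k, hk, rfl⟩
      exact ⟨⟨k, rfl⟩, hpm k j hk⟩
    · rintro ⟨⟨k, rfl⟩, hlt⟩
      exact ⟨k, hpsm.lt_iff_lt.1 hlt, rfl⟩
  · rintro _ ⟨j, rfl⟩
    exact hpb _
  · exact ⟨0, by simp [pick, hF0]⟩

/-- if `m₀` has the empty history then it is the least element of every member containing it -/
theorem stage_root {A : Set ℕ} (hA : A ∈ Fam (stage γ e i dec Q)) {m₀ : ℕ} (hm : m₀ ∈ A)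
    (hem₀ : e m₀ = hc ∅ (fun _ _ => 0)) : ∀ x ∈ A, m₀ ≤ x := by
  intro x hx
  by_contra hlt
  push Not at hlt
  obtain ⟨s, hs, hsA⟩ := hA.2 m₀ hm
  obtain ⟨R, hR⟩ := stage_some hs
  have h1 : hc s R = hc ∅ (fun _ _ => 0) := by rw [← hR.1, hem₀]
  have h2 : s = ∅ := (hc_inj h1).1
  have h3 : x ∈ s := (hsA x).2 ⟨hx, hlt⟩
  simp [h2] at h3

end Stage

end Pool.Agent.Helper75.SplitCore
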