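import Mathlib
import Pool.Agent.Helper75.SplitCore

/-! Main argument for the closed almost disjointness number. -/

open Set Cardinal

namespace Pool.Agent.Helper75.SplitCore

section Abs

variable {Ω : Type} [LinearOrder Ω] [WellFoundedLT Ω]

theorem exists_closed (hcnt : ∀ γ : Ω, (Iio γ).Countable)
    (hb : ∀ S : Set Ω, S.Countable → ∃ γ, ∀ s ∈ S, s < γ) (F : Ω → Ω) (α : Ω) :
    ∃ γ, α < γ ∧ ∀ β < γ, F β < γ := by
  have hG : ∀ δ : Ω, ∃ γ, δ < γ ∧ ∀ β ≤ δ, F β < γ := by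
    intro δ
    have hcount : (insert δ (F '' (Iic δ))).Countable := by
      apply Countable.insert
      apply Countable.image
      have : (Iic δ : Set Ω) = insert δ (Iio δ) := by
        ext x
        simp [le_iff_eq_or_lt]
      rw [this]
      exact (hcnt δ).insert δ
    obtain ⟨γ, hγ⟩ := hb _ hcount
    refine ⟨γ, hγ δ (mem_insert _ _), fun β hβ => hγ _ (mem_insert_of_mem _ ⟨β, hβ, rfl⟩)⟩
  choose G hG1 hG2 using hG
  let g : ℕ → Ω := fun n => Nat.rec α (fun _ x => G x) n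
  have hg0 : g 0 = α := rfl
  have hgs : ∀ n, g (n + 1) = G (g n) := fun n => rfl
  obtain ⟨γ₁, hγ₁⟩ := hb (range g) (countable_range g)
  have hne : {γ : Ω | ∀ n, g n < γ}.Nonempty := ⟨γ₁, fun n => hγ₁ _ ⟨n, rfl⟩⟩
  obtain ⟨γ, hγ, hmin⟩ := WellFounded.has_min (wellFounded_lt (α := Ω)) _ hne
  refine ⟨γ, by simpa [hg0] using hγ 0, ?_⟩
  intro β hβ
  have hnot : ¬ ∀ n, g n < β := fun h => hmin β h hβ
  push Not at hnot
  obtain ⟨n, hn⟩ := hnot
  calc F β < G (g n) := hG2 (g n) β hn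
    _ = g (n + 1) := (hgs n).symm
    _ < γ := hγ (n + 1)

/-- Ulam matrix argument: a function taking each value of a family of size at most `ℵ₁` on a
stationary set -/
theorem exists_assignment (hcnt : ∀ γ : Ω, (Iio γ).Countable)
    (hb : ∀ S : Set Ω, S.Countable → ∃ γ, ∀ s ∈ S, s < γ) (hΩ : ¬ Countable Ω)
    (ℱ : Set (ℕ → ℕ)) (hℱ : #ℱ ≤ ℵ₁) (f₀ : ℕ → ℕ) (hf₀ : f₀ ∈ ℱ) :
    ∃ e : Ω → (ℕ → ℕ), (∀ γ, (∀ β, ¬ β < γ) → e γ = f₀) ∧
      ∀ f ∈ ℱ, ∀ F : Ω → Ω, ∃ γ, e γ = f ∧ ∀ β < γ, F β < γ := by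
  classical
  have hi : ∀ γ : Ω, ∃ i : Ω → ℕ, InjOn i (Iio γ) := fun γ => (countable_iff_exists_injOn.1 (hcnt γ))
  choose i hi using hi
  let X : ℕ → Ω → Set Ω := fun n α => {γ | α < γ ∧ i γ α = n}
  have hstat : ∀ α : Ω, ∃ n, ∀ F : Ω → Ω, ∃ γ ∈ X n α, ∀ β < γ, F β < γ := by
    intro α
    by_contra hcon
    push Not at hcon
    choose F hF using hcon
    have hsup : ∀ β : Ω, ∃ δ, ∀ n, F n β < δ := by
      intro β
      obtain ⟨δ, hδ⟩ := hb (range (fun n => F n β)) (countable_range _)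
      exact ⟨δ, fun n => hδ _ ⟨n, rfl⟩⟩
    choose F' hF' using hsup
    obtain ⟨γ, hαγ, hγ⟩ := exists_closed hcnt hb F' α
    obtain ⟨β, hβ, hβ'⟩ := hF (i γ α) γ ⟨hαγ, rfl⟩
    exact absurd ((hF' β _).trans (hγ β hβ)) (not_lt.2 hβ')
  choose N hN using hstat
  have hunc : ∃ n, ¬ {α : Ω | N α = n}.Countable := by
    by_contra hcon
    push Not at hcon
    apply hΩ
    rw [← countable_univ_iff]
    have : (univ : Set Ω) = ⋃ n, {α : Ω | N α = n} := by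
      ext x
      simp
    rw [this]
    exact countable_iUnion hcon
  obtain ⟨n, hn⟩ := hunc
  have hW : ℵ₁ ≤ #{α : Ω | N α = n} := by
    rw [aleph_one_le_iff]
    rw [← not_le, le_aleph0_iff_set_countable]
    exact hn
  have hsurj : ∃ g : {α : Ω | N α = n} → ℱ, Function.Surjective g := by
    have hle : #ℱ ≤ #{α : Ω | N α = n} := hℱ.trans hW
    obtain ⟨emb⟩ := Cardinal.le_def _ _ |>.1 hle
    have : Nonempty ℱ := ⟨⟨f₀, hf₀⟩⟩
    exact ⟨Function.invFun emb, Function.invFun_surjective emb.injective⟩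
  obtain ⟨g, hg⟩ := hsurj
  let e : Ω → (ℕ → ℕ) := fun γ =>
    if h : ∃ α : {α : Ω | N α = n}, γ ∈ X n α.1 then (g h.choose).1 else f₀
  refine ⟨e, ?_, ?_⟩
  · intro γ hγ
    have : ¬ ∃ α : {α : Ω | N α = n}, γ ∈ X n α.1 := by
      rintro ⟨α, hα⟩
      exact hγ _ hα.1
    simp only [e]
    rw [dif_neg this]
  · intro f hf F
    obtain ⟨α, hα⟩ := hg ⟨f, hf⟩
    have hNα : N α.1 = n := α.2
    obtain ⟨γ, hγX, hγF⟩ := hN α.1 F
    rw [hNα] at hγX
    refine ⟨γ, ?_, hγF⟩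
    have hex : ∃ α : {α : Ω | N α = n}, γ ∈ X n α.1 := ⟨α, hγX⟩
    have hspec := hex.choose_spec
    have heq : hex.choose = α := by
      apply Subtype.ext
      exact hi γ hspec.1 hγX.1 (hspec.2.trans hγX.2.symm)
    simp only [e]
    rw [dif_pos hex, heq, hα]

/-- the recursive construction -/
noncomputable def PP (e : Ω → (ℕ → ℕ)) (i : Ω → Ω → ℕ) (dec : Ω → ℕ → Ω) : Ω → Code :=
  (wellFounded_lt (α := Ω)).fix (fun γ ih => stage γ (e γ) (i γ) (dec γ) ih)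

theorem PP_eq (e : Ω → (ℕ → ℕ)) (i : Ω → Ω → ℕ) (dec : Ω → ℕ → Ω) (γ : Ω) :
    PP e i dec γ = stage γ (e γ) (i γ) (dec γ) (fun β _ => PP e i dec β) := by
  unfold PP
  rw [WellFounded.fix_eq]

theorem main_abs (hcnt : ∀ γ : Ω, (Iio γ).Countable)
    (hb : ∀ S : Set Ω, S.Countable → ∃ γ, ∀ s ∈ S, s < γ) (hΩ : ¬ Countable Ω)
    (ℱ : Set (ℕ → ℕ)) (hℱ : #ℱ ≤ ℵ₁)
    (hsplit : ∀ b : Set ℕ, b.Infinite → ∃ f ∈ ℱ, ∀ n, {m | m ∈ b ∧ f m = n}.Infinite) :
    ∃ P : Ω → Code, (⋃ γ, Fam (P γ)).Infinite ∧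
      (∀ A ∈ ⋃ γ, Fam (P γ), ∀ B ∈ ⋃ γ, Fam (P γ), A ≠ B → (A ∩ B).Finite) ∧
      ∀ b : Set ℕ, b.Infinite → ∃ A ∈ ⋃ γ, Fam (P γ), (A ∩ b).Infinite := by
  classical
  obtain ⟨f₀, hf₀, hf₀s⟩ := hsplit univ infinite_univ
  obtain ⟨e, he0, he⟩ := exists_assignment hcnt hb hΩ ℱ hℱ f₀ hf₀
  have hi : ∀ γ : Ω, ∃ i : Ω → ℕ, InjOn i (Iio γ) := fun γ => (countable_iff_exists_injOn.1 (hcnt γ))
  choose i hi using hi
  have hne : Nonempty Ω := by
    by_contra h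
    rw [not_nonempty_iff] at h
    exact hΩ inferInstance
  have hdec : ∀ γ : Ω, ∃ dec : ℕ → Ω, ∀ α < γ, dec (i γ α) = α := by
    intro γ
    refine ⟨Function.invFunOn (i γ) (Iio γ), ?_⟩
    intro α hα
    exact (hi γ).leftInvOn_invFunOn hα
  choose dec hdec using hdec
  let P : Ω → Code := PP e i dec
  have hP : ∀ γ, P γ = stage γ (e γ) (i γ) (dec γ) (fun β _ => P β) := PP_eq e i dec
  have hcoh : ∀ γ, Coh (P γ) := by
    intro γ
    rw [hP γ]
    exact stage_coh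
  have horth : ∀ β γ : Ω, β < γ → ∀ A ∈ Fam (P γ), ∀ B ∈ Fam (P β), (A ∩ B).Finite := by
    intro β γ hβγ A hA B hB
    rw [hP γ] at hA
    exact stage_orth (Q := fun β _ => P β) hA hβγ hB
  refine ⟨P, ?_, ?_, ?_⟩
  · -- infinitely many members at the least stage
    obtain ⟨γ₀, -, hmin⟩ := WellFounded.has_min (wellFounded_lt (α := Ω)) univ univ_nonempty
    have hno : ∀ β, ¬ β < γ₀ := fun β => hmin β (mem_univ _)
    have heγ : e γ₀ = f₀ := he0 γ₀ hno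
    have hex : ∀ m₀ : {m | m ∈ (univ : Set ℕ) ∧ f₀ m = hc ∅ (fun _ _ => 0)},
        ∃ A ∈ Fam (P γ₀), m₀.1 ∈ A := by
      rintro ⟨m₀, hm₀⟩
      have := stage_catch (γ := γ₀) (e := e γ₀) (i := i γ₀) (dec := dec γ₀)
        (Q := fun β _ => P β) univ (by rw [heγ]; exact hf₀s) (i γ₀)
        (fun α hα => absurd hα (hno α)) (dec γ₀) (fun α hα => absurd hα (hno α))
        (fun _ _ => γ₀) (fun α hα => absurd hα (hno α)) (fun α hα => absurd hα (hno α))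
        m₀ (mem_univ _) (by rw [heγ]; exact hm₀.2)
      obtain ⟨A, hA, -, hmA⟩ := this
      rw [← hP γ₀] at hA
      exact ⟨A, hA, hmA⟩
    choose A hA hmA using hex
    have hinj : Function.Injective A := by
      intro x y hxy
      have hAx := hA x
      have hAy := hA y
      rw [hP γ₀] at hAx hAy
      apply Subtype.ext
      apply le_antisymm
      · have := stage_root hAx (hmA x) (by rw [heγ]; exact x.2.2) y.1 (by rw [hxy]; exact hmA y)
        exact this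
      · have := stage_root hAy (hmA y) (by rw [heγ]; exact y.2.2) x.1 (by rw [← hxy]; exact hmA x)
        exact this
    have hinf : Infinite {m | m ∈ (univ : Set ℕ) ∧ f₀ m = hc ∅ (fun _ _ => 0)} :=
      (hf₀s _).to_subtype
    exact Set.infinite_of_injective_forall_mem hinj (fun x => mem_iUnion.2 ⟨γ₀, hA x⟩)
  · intro A hA B hB hAB
    obtain ⟨γ, hAγ⟩ := mem_iUnion.1 hA
    obtain ⟨β, hBβ⟩ := mem_iUnion.1 hB
    rcases lt_trichotomy β γ with h | h | h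
    · exact horth β γ h A hAγ B hBβ
    · subst h
      by_contra hinf
      exact hAB (fam_ad hAγ hBβ hinf)
    · rw [inter_comm]
      exact horth γ β h B hBβ A hAγ
  · intro b hbinf
    by_contra hcon
    push Not at hcon
    have hunc : ∀ γ, ∀ A ∈ Fam (P γ), (A ∩ b).Finite := by
      intro γ A hA
      have := hcon A (mem_iUnion.2 ⟨γ, hA⟩)
      exact this
    have hrank : ∀ γ : Ω, ∃ ρ : ℕ → Ω, ∀ m ∈ b, ∀ n ∈ b, Rel (P γ) m n → ρ n < ρ m :=
      fun γ => exists_rank (hcoh γ) hb b (hunc γ)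
    choose ρ hρ using hrank
    have hbound : ∀ β : Ω, ∃ δ : Ω, ∀ m, ρ β m < δ := by
      intro β
      obtain ⟨δ, hδ⟩ := hb (range (ρ β)) (countable_range _)
      exact ⟨δ, fun m => hδ _ ⟨m, rfl⟩⟩
    choose F hF using hbound
    obtain ⟨f, hf, hfs⟩ := hsplit b hbinf
    obtain ⟨γ, heγ, hγ⟩ := he f hf F
    obtain ⟨m₀, hm₀⟩ := (hfs (hc ∅ (fun _ _ => 0))).nonempty
    have := stage_catch (γ := γ) (e := e γ) (i := i γ) (dec := dec γ)
        (Q := fun β _ => P β) b (by rw [heγ]; exact hfs) (i γ)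
        (hdec γ) (dec γ) (hdec γ) ρ (fun β hβ m _ => (hF β m).trans (hγ β hβ))
        (fun β _ => hρ β) m₀ hm₀.1 (by rw [heγ]; exact hm₀.2)
    obtain ⟨A, hA, hAb, -⟩ := this
    rw [← hP γ] at hA
    have h1 : (A ∩ b).Finite := hunc γ A hA
    rw [inter_eq_left.2 hAb] at h1
    exact hA.1 h1

end Abs

end Pool.Agent.Helper75.SplitCore
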