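import Mathlib
import Pool.Agent.Helper75.SplitMain

/-! Closedness of the coded families, and the instantiation at the first uncountable ordinal. -/

open Set Cardinal

namespace Pool.Agent.Helper75.SplitCore

theorem omega1_bdd (S : Set (Cardinal.ord ℵ₁).ToType) (hS : S.Countable) :
    ∃ γ, ∀ s ∈ S, s < γ := by
  by_contra hcon
  push Not at hcon
  have hcof : IsCofinal S := by
    intro x
    obtain ⟨s, hs, h⟩ := hcon x
    exact ⟨s, hs, h⟩
  have h1 := Order.cof_le hcof
  have h2 : #S ≤ ℵ₀ := by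
    rw [le_aleph0_iff_set_countable]
    exact hS
  have h3 : Order.cof (Cardinal.ord ℵ₁).ToType = ℵ₁ := by
    rw [Ordinal.cof_toType]
    exact isRegular_aleph_one.cof_ord
  rw [h3] at h1
  exact absurd (h1.trans h2) (not_le.2 aleph0_lt_aleph_one)

/-- the closed subset of the Cantor space attached to a tree code -/
def FF (P : Code) : Set (ℕ → Bool) :=
  {x | ∀ n, x n = true → P n = some ((Finset.range n).filter (fun m => x m = true))}

theorem isClosed_FF (P : Code) : IsClosed (FF P) := by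
  have h : FF P = ⋂ n, {x : ℕ → Bool | x n = true →
      P n = some ((Finset.range n).filter (fun m => x m = true))} := by
    ext x
    simp [FF]
  rw [h]
  apply isClosed_iInter
  intro n
  -- the condition depends only on finitely many coordinates
  let res : (ℕ → Bool) → (Fin (n + 1) → Bool) := fun x k => x k
  have hres : Continuous res := by
    apply continuous_pi
    intro k
    exact continuous_apply _
  let K : Set (Fin (n + 1) → Bool) := {y | y (Fin.last n) = true →
    P n = some ((Finset.range n).filter (fun m => if h : m < n + 1 then y ⟨m, h⟩ = true else False))}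
  have hK : IsClosed K := isClosed_discrete K
  have : {x : ℕ → Bool | x n = true →
      P n = some ((Finset.range n).filter (fun m => x m = true))} = res ⁻¹' K := by
    ext x
    have h1 : (Finset.range n).filter (fun m => x m = true) =
        (Finset.range n).filter (fun m => if h : m < n + 1 then res x ⟨m, h⟩ = true else False) := by
      apply Finset.filter_congr
      intro m hm
      have hm' : m < n + 1 := (Finset.mem_range.1 hm).trans (Nat.lt_succ_self n)
      simp [res, hm']
    constructor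
    · intro hx hy
      rw [← h1]
      exact hx hy
    · intro hx hy
      rw [h1]
      exact hx hy
  rw [this]
  exact hK.preimage hres

theorem Fam_eq (P : Code) :
    Fam P = {a : Set ℕ | a.Infinite ∧ ∃ x ∈ FF P, a = {n | x n = true}} := by
  classical
  ext a
  constructor
  · rintro ⟨hinf, ha⟩
    refine ⟨hinf, fun n => decide (n ∈ a), ?_, ?_⟩
    · intro n hn
      have hn' : n ∈ a := by simpa using hn
      obtain ⟨s, hs, hsa⟩ := ha n hn'
      rw [hs]
      congr 1
      ext m
      rw [hsa m]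
      simp [and_comm]
    · ext n
      simp
  · rintro ⟨hinf, x, hx, rfl⟩
    refine ⟨hinf, ?_⟩
    intro n hn
    refine ⟨_, hx n hn, ?_⟩
    intro m
    simp [and_comm]

theorem main_closed (ℱ : Set (ℕ → ℕ)) (hℱ : #ℱ ≤ ℵ₁)
    (hsplit : ∀ b : Set ℕ, b.Infinite → ∃ f ∈ ℱ, ∀ n, {m | m ∈ b ∧ f m = n}.Infinite) :
    ∃ 𝒞 : Set (Set (Set ℕ)), #𝒞 ≤ ℵ₁ ∧
      (∀ C ∈ 𝒞, ∃ F : Set (ℕ → Bool), IsClosed F ∧
        C = {a | a.Infinite ∧ ∃ x ∈ F, a = {n | x n = true}}) ∧
      (⋃₀ 𝒞).Infinite ∧
      (∀ A ∈ ⋃₀ 𝒞, ∀ B ∈ ⋃₀ 𝒞, A ≠ B → (A ∩ B).Finite) ∧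
      ∀ b : Set ℕ, b.Infinite → ∃ A ∈ ⋃₀ 𝒞, (A ∩ b).Infinite := by
  have hcnt : ∀ γ : (Cardinal.ord ℵ₁).ToType, (Iio γ).Countable := by
    intro γ
    have h := Cardinal.mk_Iio_toType_ord_lt γ
    rw [← le_aleph0_iff_set_countable]
    exact Order.lt_succ_iff.1 (h.trans_eq succ_aleph0.symm)
  have hΩ : ¬ Countable (Cardinal.ord ℵ₁).ToType := by
    intro hc
    have h1 : #(Cardinal.ord ℵ₁).ToType ≤ ℵ₀ := mk_le_aleph0
    rw [mk_ord_toType] at h1
    exact absurd h1 (not_le.2 aleph0_lt_aleph_one)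
  obtain ⟨P, h1, h2, h3⟩ := main_abs hcnt omega1_bdd hΩ ℱ hℱ hsplit
  refine ⟨range (fun γ => Fam (P γ)), ?_, ?_, ?_, ?_, ?_⟩
  · have : #(range (fun γ => Fam (P γ))) ≤ #(Cardinal.ord ℵ₁).ToType := mk_range_le
    rwa [mk_ord_toType] at this
  · rintro _ ⟨γ, rfl⟩
    exact ⟨FF (P γ), isClosed_FF _, Fam_eq _⟩
  · rwa [sUnion_range]
  · rwa [sUnion_range]
  · rwa [sUnion_range]

end Pool.Agent.Helper75.SplitCore
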