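import Mathlib

/-! Three sufficient conditions for the existence of small partition-splitting families. -/

open Set Cardinal MeasureTheory Filter Topology

namespace Pool.Agent.Helper75.SplitCore

theorem nonmeagre_splits (X : Set (ℕ → ℕ)) (hX : ¬ IsMeagre X) (b : Set ℕ) (hb : b.Infinite) :
    ∃ f ∈ X, ∀ n, {m | m ∈ b ∧ f m = n}.Infinite := by
  by_contra hcon
  push Not at hcon
  apply hX
  -- the set of good functions is residual
  let U : ℕ → ℕ → Set (ℕ → ℕ) := fun n N => {f | ∃ m ∈ b, N < m ∧ f m = n}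
  have hopen : ∀ n N, IsOpen (U n N) := by
    intro n N
    have : U n N = ⋃ m ∈ {m | m ∈ b ∧ N < m}, (fun f : ℕ → ℕ => f m) ⁻¹' {n} := by
      ext f
      simp only [U, mem_ofPred_eq, mem_iUnion, mem_preimage, mem_singleton_iff, exists_prop]
      constructor
      · rintro ⟨m, h1, h2, h3⟩
        exact ⟨m, ⟨h1, h2⟩, h3⟩
      · rintro ⟨m, ⟨h1, h2⟩, h3⟩
        exact ⟨m, h1, h2, h3⟩
    rw [this]
    apply isOpen_biUnion
    intro m _
    exact (isOpen_discrete _).preimage (continuous_apply m)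
  have hdense : ∀ n N, Dense (U n N) := by
    intro n N
    rw [dense_iff_inter_open]
    rintro V hV ⟨f, hf⟩
    rw [isOpen_pi_iff] at hV
    obtain ⟨I, u, hu, hIu⟩ := hV f hf
    obtain ⟨m, hm, hlt⟩ := hb.exists_gt (max N (I.sup id))
    have hmI : m ∉ I := by
      intro h
      have : m ≤ I.sup id := Finset.le_sup (f := id) h
      exact absurd (lt_of_le_of_lt (le_max_right _ _) hlt) (not_lt.2 this)
    refine ⟨Function.update f m n, ?_, ⟨m, hm, lt_of_le_of_lt (le_max_left _ _) hlt, by simp⟩⟩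
    apply hIu
    intro k hk
    have hkm : k ≠ m := by
      rintro rfl
      exact hmI hk
    rw [Function.update_of_ne hkm]
    exact (hu k hk).2
  have hres : (⋂ n, ⋂ N, U n N) ∈ residual (ℕ → ℕ) := by
    rw [countable_iInter_mem]
    intro n
    rw [countable_iInter_mem]
    intro N
    exact residual_of_dense_open (hopen n N) (hdense n N)
  unfold IsMeagre
  refine Filter.mem_of_superset hres ?_
  intro f hf hfX
  obtain ⟨n, hn⟩ := hcon f hfX
  obtain ⟨N, hN⟩ := hn.bddAbove
  have h1 : f ∈ U n N := by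
    have := mem_iInter.1 (mem_iInter.1 hf n) N
    exact this
  obtain ⟨m, hm, hlt, hfm⟩ := h1
  exact absurd (hN ⟨hm, hfm⟩) (not_le.2 hlt)

theorem dominating_splits (D : Set (ℕ → ℕ))
    (hD : ∀ f : ℕ → ℕ, ∃ g ∈ D, ∀ᶠ n in atTop, f n ≤ g n) :
    ∃ ℱ : Set (ℕ → ℕ), #ℱ ≤ #D ∧
      ∀ b : Set ℕ, b.Infinite → ∃ f ∈ ℱ, ∀ n, {m | m ∈ b ∧ f m = n}.Infinite := by
  classical
  -- interval partition attached to `g`
  let j : (ℕ → ℕ) → ℕ → ℕ := fun g k => Nat.rec 0 (fun _ x => max (g x) x + 1) k
  have hj0 : ∀ g, j g 0 = 0 := fun g => rfl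
  have hjs : ∀ g k, j g (k + 1) = max (g (j g k)) (j g k) + 1 := fun g k => rfl
  have hjm : ∀ g, StrictMono (j g) := by
    intro g
    apply strictMono_nat_of_lt_succ
    intro k
    rw [hjs]
    exact Nat.lt_succ_of_le (le_max_right _ _)
  -- index of the interval containing `m`
  have hidx : ∀ g m, ∃ k, j g k ≤ m ∧ m < j g (k + 1) := by
    intro g m
    have hex : ∃ k, m < j g (k + 1) := ⟨m, (hjm g).le_apply.trans_lt (hjm g (Nat.lt_succ_self m))⟩
    refine ⟨Nat.find hex, ?_, Nat.find_spec hex⟩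
    rcases Nat.eq_zero_or_pos (Nat.find hex) with h | h
    · rw [h, hj0]
      exact Nat.zero_le _
    · obtain ⟨k, hk⟩ := Nat.exists_eq_succ_of_ne_zero h.ne'
      rw [hk]
      have := Nat.find_min hex (m := k) (by omega)
      exact not_lt.1 this
  choose idx hidx1 hidx2 using hidx
  have huniq : ∀ g m k, j g k ≤ m → m < j g (k + 1) → idx g m = k := by
    intro g m k h1 h2
    have h3 := hidx1 g m
    have h4 := hidx2 g m
    have h5 : idx g m < k + 1 := (hjm g).lt_iff_lt.1 (h3.trans_lt h2)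
    have h6 : k < idx g m + 1 := (hjm g).lt_iff_lt.1 (h1.trans_lt h4)
    omega
  let E : (ℕ → ℕ) → (ℕ → ℕ) := fun g m => (Nat.unpair (idx g m)).1
  refine ⟨E '' D, mk_image_le, ?_⟩
  intro b hb
  have hnext : ∀ n, ∃ m ∈ b, n ≤ m := by
    intro n
    obtain ⟨m, hm, h⟩ := hb.exists_gt n
    exact ⟨m, hm, h.le⟩
  choose f hfb hfn using hnext
  obtain ⟨g, hg, hfg⟩ := hD f
  refine ⟨E g, ⟨g, hg, rfl⟩, ?_⟩
  obtain ⟨N, hN⟩ := eventually_atTop.1 hfg
  intro n
  apply Set.infinite_of_not_bddAbove
  rintro ⟨M, hM⟩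
  let k : ℕ := Nat.pair n (max N (M + 1))
  have hk1 : max N (M + 1) ≤ k := Nat.right_le_pair _ _
  have hk2 : k ≤ j g k := (hjm g).le_apply
  let m := f (j g k)
  have h1 : j g k ≤ m := hfn _
  have h2 : m < j g (k + 1) := by
    rw [hjs]
    apply Nat.lt_succ_of_le
    refine le_trans (hN (j g k) ?_) (le_max_left _ _)
    exact (le_max_left _ _).trans (hk1.trans hk2)
  have h3 : idx g m = k := huniq g m k h1 h2
  have h4 : m ∈ {m | m ∈ b ∧ E g m = n} := by
    refine ⟨hfb _, ?_⟩
    simp only [E]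
    rw [h3]
    simp [k]
  have h5 := hM h4
  have h6 : M + 1 ≤ m := (le_max_right _ _).trans (hk1.trans (hk2.trans h1))
  omega

/-- a set of reals which, for infinitely many `m`, misses a fixed periodic pattern of mesh `1/m`
is Lebesgue null -/
theorem null_of_misses (b : Set ℕ) (hb : b.Infinite) (u v : ℝ) (hu : 0 ≤ u) (huv : u < v)
    (hv : v ≤ 1) (N : ℕ) (A : Set ℝ)
    (hA : ∀ x ∈ A, ∀ m ∈ b, N < m → ¬ (u < Int.fract (m * x) ∧ Int.fract (m * x) < v)) :
    volume A = 0 := by
  have hLD := Besicovitch.ae_tendsto_measure_inter_div (volume : Measure ℝ) A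
  -- at no point of the space is the density equal to one
  have hpt : ∀ x : ℝ, ¬ Tendsto (fun r => volume (A ∩ Metric.closedBall x r) /
      volume (Metric.closedBall x r)) (𝓝[>] 0) (𝓝 1) := by
    intro x hx
    have hlt : ENNReal.ofReal (1 - (v - u) / 2) < 1 := by
      rw [ENNReal.ofReal_lt_one]
      linarith
    have hev := hx.eventually (lt_mem_nhds hlt)
    -- extract a small radius `1/m`
    rw [eventually_nhdsWithin_iff] at hev
    obtain ⟨ε, hε, hball⟩ := Metric.eventually_nhds_iff.1 hev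
    obtain ⟨K, hK⟩ := exists_nat_gt (1 / ε)
    obtain ⟨m, hmb, hm⟩ := hb.exists_gt (max N K)
    have hNm : N < m := lt_of_le_of_lt (le_max_left _ _) hm
    have hKm : K < m := lt_of_le_of_lt (le_max_right _ _) hm
    have hm0 : (0 : ℝ) < m := by
      have : 0 < m := lt_of_le_of_lt (Nat.zero_le _) hNm
      exact_mod_cast this
    have hr : (0 : ℝ) < 1 / m := by positivity
    have hrε : 1 / (m : ℝ) < ε := by
      rw [div_lt_iff₀ hm0]
      have h1 : 1 / ε < m := hK.trans (by exact_mod_cast hKm)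
      rw [div_lt_iff₀ hε] at h1
      linarith
    have hlt2 := hball (y := 1 / (m : ℝ)) (by
      rw [Real.dist_eq, sub_zero, abs_of_pos hr]; exact hrε) hr
    -- the interval missed by `A`
    let c : ℝ := ⌊m * x⌋
    let I : Set ℝ := Ioo ((c + u) / m) ((c + v) / m)
    have hc1 : c ≤ m * x := Int.floor_le _
    have hc2 : m * x < c + 1 := Int.lt_floor_add_one _
    have hIA : Disjoint A I := by
      rw [Set.disjoint_left]
      rintro y hyA ⟨hy1, hy2⟩
      rw [div_lt_iff₀ hm0] at hy1
      rw [lt_div_iff₀ hm0] at hy2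
      have hfl : ⌊(m : ℝ) * y⌋ = ⌊(m : ℝ) * x⌋ := by
        rw [Int.floor_eq_iff]
        constructor
        · show c ≤ m * y
          linarith
        · show m * y < c + 1
          linarith
      have hfr : Int.fract ((m : ℝ) * y) = m * y - c := by
        rw [Int.fract, hfl]
      refine hA y hyA m hmb hNm ?_
      rw [hfr]
      constructor <;> linarith
    have hIball : I ⊆ Metric.closedBall x (1 / (m : ℝ)) := by
      rintro y ⟨hy1, hy2⟩
      rw [div_lt_iff₀ hm0] at hy1
      rw [lt_div_iff₀ hm0] at hy2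
      rw [Metric.mem_closedBall, Real.dist_eq, abs_le]
      constructor
      · rw [neg_le_sub_iff_le_add, ← sub_le_iff_le_add, ← mul_le_mul_iff_left₀ hm0]
        have : (x - 1 / m) * m = x * m - 1 := by field_simp
        nlinarith
      · rw [← mul_le_mul_iff_left₀ hm0]
        have : 1 / (m : ℝ) * m = 1 := by field_simp
        nlinarith
    have hvolI : volume I = ENNReal.ofReal ((v - u) / m) := by
      rw [Real.volume_Ioo]
      congr 1
      ring
    have hvolB : volume (Metric.closedBall x (1 / (m : ℝ))) = ENNReal.ofReal (2 * (1 / m)) :=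
      Real.volume_closedBall _ _
    have hsum : volume (A ∩ Metric.closedBall x (1 / (m : ℝ))) + volume I ≤
        volume (Metric.closedBall x (1 / (m : ℝ))) := by
      rw [← measure_union (hIA.mono_left inter_subset_left) measurableSet_Ioo]
      exact measure_mono (union_subset inter_subset_right hIball)
    have hle : volume (A ∩ Metric.closedBall x (1 / (m : ℝ))) ≤
        ENNReal.ofReal ((1 - (v - u) / 2) * (2 * (1 / m))) := by
      have hfin : volume I ≠ ⊤ := by rw [hvolI]; exact ENNReal.ofReal_ne_top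
      have h1 := ENNReal.le_sub_of_add_le_right hfin hsum
      refine h1.trans ?_
      rw [hvolB, hvolI, ← ENNReal.ofReal_sub _ (by positivity)]
      · apply ENNReal.ofReal_le_ofReal
        apply le_of_eq
        field_simp
    have hdiv : volume (A ∩ Metric.closedBall x (1 / (m : ℝ))) /
        volume (Metric.closedBall x (1 / (m : ℝ))) ≤ ENNReal.ofReal (1 - (v - u) / 2) := by
      rw [hvolB]
      apply ENNReal.div_le_of_le_mul
      rw [← ENNReal.ofReal_mul (by linarith)]
      exact hle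
    exact absurd hlt2 (not_lt.2 hdiv)
  have hfalse : ∀ᵐ x ∂((volume : Measure ℝ).restrict A), False := by
    filter_upwards [hLD] with x hx
    exact hpt x hx
  have h0 : (volume : Measure ℝ).restrict A = 0 := by
    rw [← ae_eq_bot]
    exact Filter.eventually_false_iff_eq_bot.1 hfalse
  exact Measure.restrict_eq_zero.1 h0

theorem nonnull_splits (X : Set ℝ) (hX : volume X ≠ 0) :
    ∃ ℱ : Set (ℕ → ℕ), #ℱ ≤ #X ∧
      ∀ b : Set ℕ, b.Infinite → ∃ f ∈ ℱ, ∀ n, {m | m ∈ b ∧ f m = n}.Infinite := by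
  let E : ℝ → ℕ → ℕ := fun x m => ⌊1 / Int.fract ((m : ℝ) * x)⌋₊ - 1
  refine ⟨E '' X, mk_image_le, ?_⟩
  intro b hb
  by_contra hcon
  push Not at hcon
  apply hX
  let A : ℕ → ℕ → Set ℝ := fun n N => {x | ∀ m ∈ b, N < m →
    ¬ (1 / ((n : ℝ) + 2) < Int.fract (m * x) ∧ Int.fract (m * x) < 1 / ((n : ℝ) + 1))}
  have hsub : X ⊆ ⋃ n, ⋃ N, A n N := by
    intro x hx
    obtain ⟨n, hn⟩ := hcon (E x) ⟨x, hx, rfl⟩
    obtain ⟨N, hN⟩ := hn.bddAbove
    refine mem_iUnion.2 ⟨n, mem_iUnion.2 ⟨N, ?_⟩⟩
    rintro m hm hNm ⟨h1, h2⟩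
    have hpos : 0 < Int.fract ((m : ℝ) * x) := lt_trans (by positivity) h1
    have hE : E x m = n := by
      have : ⌊1 / Int.fract ((m : ℝ) * x)⌋₊ = n + 1 := by
        rw [Nat.floor_eq_iff (by positivity)]
        constructor
        · rw [le_div_iff₀ hpos]
          rw [lt_div_iff₀ (by positivity)] at h2
          push_cast
          linarith
        · rw [div_lt_iff₀ hpos]
          rw [div_lt_iff₀ (by positivity)] at h1
          push_cast
          linarith
      simp only [E]
      rw [this]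
      simp
    exact absurd (hN ⟨hm, hE⟩) (not_le.2 hNm)
  refine measure_mono_null hsub ?_
  rw [measure_iUnion_null_iff]
  intro n
  rw [measure_iUnion_null_iff]
  intro N
  refine null_of_misses b hb (1 / ((n : ℝ) + 2)) (1 / ((n : ℝ) + 1)) (by positivity) ?_ ?_ N
    (A n N) (fun x hx => hx)
  · apply one_div_lt_one_div_of_lt (by positivity)
    linarith
  · rw [div_le_one (by positivity)]
    have : (0 : ℝ) ≤ n := Nat.cast_nonneg n
    linarith

end Pool.Agent.Helper75.SplitCore
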